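import Mathlib

namespace Pool.Agent.Results.MP_ad0c0d_al.UnitCounts

/-- The circulant matrix with first row `a`, each further row being shifted one place to the
right: the `(i, j)` entry is `a (j - i)`, indices taken modulo `n`. -/
def cir {R : Type} {n : ℕ} (a : Fin n → R) : Matrix (Fin n) (Fin n) R :=
  Matrix.of fun i j => a (j - i)

/-- The number of `n × n` circulant matrices over `R` with determinant `d`. -/
noncomputable def count (n : ℕ) {R : Type} [CommRing R] (d : R) : ℕ :=
  Nat.card {a : Fin n → R // (cir a).det = d}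

/-- A commutative finite chain ring: finite, nontrivial, with totally ordered ideals. -/
def IsFiniteChainRing (R : Type) [CommRing R] : Prop :=
  Finite R ∧ Nontrivial R ∧ ∀ I J : Ideal R, I ≤ J ∨ J ≤ I

/-- The ring `𝔽₂[γ]/(γ²)`. -/
abbrev K : Type := QuadraticAlgebra (ZMod 2) 0 0

instance : DecidableEq K := fun x y =>
  decidable_of_iff (x.re = y.re ∧ x.im = y.im) QuadraticAlgebra.ext_iff.symm

instance : Fintype K := Fintype.ofEquiv (ZMod 2 × ZMod 2) (QuadraticAlgebra.equivProd _ _).symm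

/-- The generator. -/
def g : K := ⟨0, 1⟩

lemma k1 : ∀ x y : K, (∃ z, y = x * z) ∨ (∃ z, x = y * z) := by decide

lemma k2 : ∀ x : K, (∃ z, x = g * z) ∨ (∃ z, x * z = 1) := by decide

lemma k3 : ¬ ∃ z, (1 : K) = g * z := by decide

lemma det_cir (a : Fin 2 → K) : (cir a).det = a 0 * a 0 - a 1 * a 1 := by
  rw [Matrix.det_fin_two]
  simp [cir]
  rfl

lemma c1 : count 2 (1 : K) = 8 := by
  have h : {a : Fin 2 → K // (cir a).det = (1 : K)} ≃
      {a : K × K // a.1 * a.1 - a.2 * a.2 = 1} :=
    (finTwoArrowEquiv K).subtypeEquiv (fun a => by rw [det_cir]; rfl)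
  rw [count, Nat.card_congr h, Nat.card_eq_fintype_card]
  decide

lemma c2 : count 2 (1 + g : K) = 0 := by
  have h : {a : Fin 2 → K // (cir a).det = (1 + g : K)} ≃
      {a : K × K // a.1 * a.1 - a.2 * a.2 = 1 + g} :=
    (finTwoArrowEquiv K).subtypeEquiv (fun a => by rw [det_cir]; rfl)
  rw [count, Nat.card_congr h, Nat.card_eq_fintype_card]
  decide

/-- The number of `2 × 2` circulant matrices over `𝔽₂[γ]/(γ²)` of determinant `1` is `8`, and
no such matrix has determinant the unit `1 + γ`. -/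
theorem result : ∃ (R : Type) (_ : CommRing R) (γ b : R), IsFiniteChainRing R ∧
    (Ideal.span {γ}).IsMaximal ∧ γ ≠ 0 ∧ γ ^ 2 = 0 ∧ IsUnit b ∧
    count 2 (γ ^ 0) = 8 ∧ count 2 (b * γ ^ 0) = 0 := by
  refine ⟨K, inferInstance, g, 1 + g, ⟨inferInstance, ?_, ?_⟩, ?_, by decide, by decide, ?_, ?_, ?_⟩
  · exact ⟨0, 1, by decide⟩
  · intro I J
    by_cases h : I ≤ J
    · exact Or.inl h
    · right
      obtain ⟨x, hxI, hxJ⟩ := SetLike.not_le_iff_exists.mp h
      intro y hy
      rcases k1 x y with ⟨z, hz⟩ | ⟨z, hz⟩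
      · rw [hz]; exact I.mul_mem_right _ hxI
      · exact absurd (hz ▸ J.mul_mem_right _ hy) hxJ
  · rw [Ideal.isMaximal_iff]
    constructor
    · intro h
      rw [Ideal.mem_span_singleton] at h
      exact k3 h
    · intro J x hJ hx hxJ
      rcases k2 x with h | ⟨z, hz⟩
      · exact absurd (Ideal.mem_span_singleton.mpr h) hx
      · rw [← hz]; exact J.mul_mem_right _ hxJ
  · exact IsUnit.of_mul_eq_one (1 + g) (by decide)
  · rw [pow_zero]; exact c1
  · rw [pow_zero, mul_one]; exact c2

end Pool.Agent.Results.MP_ad0c0d_al.UnitCounts
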